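import Mathlib

set_option autoImplicit false

namespace Pool.Agent.H.MP_62af7b_co

open Finset

/-- conformal order on integer vectors -/
def Cf {ι : Type} (u v : ι → ℤ) : Prop :=
  ∀ i, (0 ≤ u i ∧ u i ≤ v i) ∨ (v i ≤ u i ∧ u i ≤ 0)

lemma Cf.trans {ι : Type} {u v w : ι → ℤ} (h : Cf u v) (h' : Cf v w) : Cf u w := by
  intro i
  have := h i
  have := h' i
  omega

def nrm {ι : Type} [Fintype ι] (v : ι → ℤ) : ℕ := ∑ i, (v i).natAbs

lemma nrm_lt {ι : Type} [Fintype ι] {u v : ι → ℤ} (h : Cf u v) (hne : u ≠ v) :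
    nrm u < nrm v := by
  obtain ⟨i, hi⟩ := Function.ne_iff.mp hne
  apply Finset.sum_lt_sum
  · intro j _
    have := h j
    omega
  · refine ⟨i, Finset.mem_univ _, ?_⟩
    have := h i
    omega

def Gr {ι : Type} (V : AddSubgroup (ι → ℤ)) : Set (ι → ℤ) :=
  {g | g ∈ V ∧ g ≠ 0 ∧ ∀ u ∈ V, u ≠ 0 → Cf u g → u = g}

lemma gr_finite {ι : Type} [Fintype ι] (V : AddSubgroup (ι → ℤ)) : (Gr V).Finite := by
  classical
  let φ : (ι → ℤ) → (ι × Bool → ℕ) := fun v p => if p.2 then (v p.1).toNat else (-v p.1).toNat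
  have hle : ∀ u v, φ u ≤ φ v → Cf u v := by
    intro u v h i
    have h1 := h (i, true)
    have h2 := h (i, false)
    simp only [φ, if_true, Bool.false_eq_true, if_false] at h1 h2
    omega
  have hinj : Set.InjOn φ (Gr V) := by
    intro u hu v hv h
    exact hv.2.2 u hu.1 hu.2.1 (hle u v h.le)
  apply Set.Finite.of_finite_image _ hinj
  have hanti : IsAntichain (· ≤ ·) (φ '' Gr V) := by
    rintro _ ⟨u, hu, rfl⟩ _ ⟨v, hv, rfl⟩ hne h
    exact hne (congrArg φ (hv.2.2 u hu.1 hu.2.1 (hle u v h)))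
  exact hanti.finite_of_wellQuasiOrdered wellQuasiOrdered_le

lemma exists_gr {ι : Type} [Fintype ι] (V : AddSubgroup (ι → ℤ)) :
    ∀ (n : ℕ) (v : ι → ℤ), nrm v ≤ n → v ∈ V → v ≠ 0 → ∃ g ∈ Gr V, Cf g v := by
  intro n
  induction n using Nat.strong_induction_on with
  | _ n ih =>
    intro v hn hv h0
    by_cases hg : v ∈ Gr V
    · exact ⟨v, hg, fun i => by omega⟩
    · have : ∃ u ∈ V, u ≠ 0 ∧ Cf u v ∧ u ≠ v := by
        by_contra hc
        push Not at hc
        exact hg ⟨hv, h0, hc⟩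
      obtain ⟨u, hu, hu0, hc, hne⟩ := this
      have := nrm_lt hc hne
      obtain ⟨g, hg, hgu⟩ := ih (nrm u) (by omega) u le_rfl hu hu0
      exact ⟨g, hg, hgu.trans hc⟩

lemma decomp {ι : Type} [Fintype ι] (V : AddSubgroup (ι → ℤ)) (S : Finset (ι → ℤ))
    (hS : ∀ g, g ∈ S ↔ g ∈ Gr V) :
    ∀ (n : ℕ) (v : ι → ℤ), nrm v ≤ n → v ∈ V →
      ∃ c : (ι → ℤ) → ℕ, v = ∑ g ∈ S, c g • g ∧ ∀ g ∈ S, Cf (c g • g) v := by
  classical
  intro n
  induction n using Nat.strong_induction_on with
  | _ n ih =>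
    intro v hn hv
    by_cases h0 : v = 0
    · refine ⟨fun _ => 0, by simp [h0], fun g _ i => by simp [h0]⟩
    obtain ⟨g, hg, hgv⟩ := exists_gr V _ v le_rfl hv h0
    have hc : Cf (v - g) v := by
      intro i
      have := hgv i
      simp only [Pi.sub_apply]
      omega
    have hne : v - g ≠ v := by
      intro h
      exact hg.2.1 (by simpa using h)
    have := nrm_lt hc hne
    obtain ⟨c, hc1, hc2⟩ := ih (nrm (v - g)) (by omega) (v - g) le_rfl (V.sub_mem hv hg.1)
    have hgS := (hS g).mpr hg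
    refine ⟨fun u => c u + if u = g then 1 else 0, ?_, ?_⟩
    · simp only [add_smul, Finset.sum_add_distrib, ← hc1, ite_smul, one_smul, zero_smul]
      rw [Finset.sum_ite_eq' S g (fun u => u), if_pos hgS]
      abel
    · intro u hu
      by_cases hug : u = g
      · subst hug
        intro i
        have h1 := hc2 u hu i
        have h2 := hgv i
        simp only [if_true, add_smul, one_smul, Pi.sub_apply, Pi.smul_apply,
          nsmul_eq_mul] at h1 ⊢
        have h3 : 0 ≤ u i → 0 ≤ (c u : ℤ) * u i := fun h => by positivity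
        have h4 : u i ≤ 0 → (c u : ℤ) * u i ≤ 0 := fun h =>
          mul_nonpos_of_nonneg_of_nonpos (by positivity) h
        generalize (c u : ℤ) * u i = w at *
        omega
      · simp only [if_neg hug, add_zero]
        exact (hc2 u hu).trans hc

/-- Few lattice points at scale one force polynomially many at scale `k`. -/
theorem graver {ι : Type} [Fintype ι] (V : AddSubgroup (ι → ℤ)) :
    ∃ G : ℕ, ∀ (b : ι → ℤ) (m k : ℕ), (∀ i, 0 ≤ b i) → 1 ≤ k →
      {v | v ∈ V ∧ ∀ i, -b i ≤ v i}.Finite → {v | v ∈ V ∧ ∀ i, -b i ≤ v i}.ncard ≤ m →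
      {v | v ∈ V ∧ ∀ i, -(k * b i) ≤ v i}.Finite ∧
      {v | v ∈ V ∧ ∀ i, -(k * b i) ≤ v i}.ncard ≤ (k * m) ^ G := by
  classical
  set S := (gr_finite V).toFinset with hSdef
  have hS : ∀ g, g ∈ S ↔ g ∈ Gr V := fun g => Set.Finite.mem_toFinset _
  refine ⟨S.card, fun b m k hb hk hfin hm => ?_⟩
  have key : ∀ v ∈ {v | v ∈ V ∧ ∀ i, -(k * b i) ≤ v i},
      ∃ c : S → Fin (k * m), v = ∑ g : S, (c g : ℕ) • (g : ι → ℤ) := by
    rintro v ⟨hv, hvb⟩
    obtain ⟨c, hc1, hc2⟩ := decomp V S hS _ v le_rfl hv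
    have hlt : ∀ g ∈ S, c g < k * m := by
      intro g hg
      by_contra hge
      push Not at hge
      have hgr := (hS g).mp hg
      have hsub : (fun j : ℕ => j • g) '' (Set.Iic m) ⊆ {v | v ∈ V ∧ ∀ i, -b i ≤ v i} := by
        rintro _ ⟨j, hj, rfl⟩
        refine ⟨V.nsmul_mem hgr.1 j, fun i => ?_⟩
        simp only [Pi.smul_apply, nsmul_eq_mul]
        have hj' : (j : ℤ) ≤ m := by exact_mod_cast hj
        have hj0 : (0 : ℤ) ≤ j := by positivity
        rcases le_or_gt 0 (g i) with h | h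
        · have := mul_nonneg hj0 h
          have := hb i
          omega
        · have h1 := hc2 g hg i
          simp only [Pi.smul_apply, nsmul_eq_mul] at h1
          have h2 := hvb i
          have hge' : ((k : ℤ) * m) ≤ c g := by exact_mod_cast hge
          have hk' : (1 : ℤ) ≤ k := by exact_mod_cast hk
          have h5 : (c g : ℤ) * g i ≤ k * m * g i := by nlinarith
          have h7 : (0 : ℤ) ≤ k * b i := by have := hb i; positivity
          have h6 : -(k * b i) ≤ k * m * g i ∨ (0 : ℤ) ≤ k * m * g i := by omega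
          have h8 : -b i ≤ m * g i := by
            rcases h6 with h6 | h6
            · by_contra hcon
              push Not at hcon
              nlinarith
            · by_contra hcon
              push Not at hcon
              have := hb i
              nlinarith
          nlinarith
      have hinj : Set.InjOn (fun j : ℕ => j • g) (Set.Iic m) := by
        intro j _ j' _ h
        obtain ⟨i, hi⟩ := Function.ne_iff.mp hgr.2.1
        have := congrFun h i
        simp only [Pi.smul_apply, nsmul_eq_mul] at this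
        have h2 : (j : ℤ) = j' := mul_right_cancel₀ hi this
        exact_mod_cast h2
      have h1 := Set.ncard_le_ncard hsub hfin
      rw [hinj.ncard_image] at h1
      have h2 : (Set.Iic m).ncard = m + 1 := by
        rw [← Finset.coe_Iic, Set.ncard_coe_finset, Nat.card_Iic]
      omega
    refine ⟨fun g => ⟨c g, hlt g g.2⟩, ?_⟩
    rw [hc1, ← Finset.sum_coe_sort S]
  have hsub : {v | v ∈ V ∧ ∀ i, -(k * b i) ≤ v i} ⊆
      (fun c : S → Fin (k * m) => ∑ g : S, (c g : ℕ) • (g : ι → ℤ)) '' Set.univ := by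
    intro v hv
    obtain ⟨c, hc⟩ := key v hv
    exact ⟨c, trivial, hc.symm⟩
  have hf := (Set.toFinite (Set.univ : Set (S → Fin (k * m)))).image
    (fun c : S → Fin (k * m) => ∑ g : S, (c g : ℕ) • (g : ι → ℤ))
  refine ⟨hf.subset hsub, (Set.ncard_le_ncard hsub hf).trans
    ((Set.ncard_image_le (Set.toFinite _)).trans ?_)⟩
  rw [Set.ncard_univ, Nat.card_eq_fintype_card]
  simp

/-- polynomially bounded natural-valued polynomials form a finite set -/
theorem poly_finite (C D : ℕ) :
    {p : Polynomial ℚ | ∀ k : ℕ, 1 ≤ k → ∃ a : ℕ, p.eval (k : ℚ) = a ∧ a ≤ C * k ^ D}.Finite := by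
  classical
  have hdeg : ∀ p : Polynomial ℚ,
      (∀ k : ℕ, 1 ≤ k → ∃ a : ℕ, p.eval (k : ℚ) = a ∧ a ≤ C * k ^ D) → p.degree ≤ D := by
    intro p hp
    by_contra hc
    push Not at hc
    have h1 : (Polynomial.X ^ D : Polynomial ℚ).degree < p.degree := by
      rwa [Polynomial.degree_X_pow]
    have h2 := Polynomial.abs_div_tendsto_atTop_atTop_of_degree_gt p (Polynomial.X ^ D) h1
      (pow_ne_zero _ Polynomial.X_ne_zero)
    have h3 := h2.comp (tendsto_natCast_atTop_atTop (R := ℚ))
    obtain ⟨k, hk1, hk2⟩ := ((h3.eventually_gt_atTop (C : ℚ)).and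
      (Filter.eventually_ge_atTop 1)).exists
    obtain ⟨a, ha, hle⟩ := hp k hk2
    simp only [Function.comp, Polynomial.eval_pow, Polynomial.eval_X, ha] at hk1
    have hk0 : (0 : ℚ) < (k : ℚ) ^ D := by positivity
    rw [abs_of_nonneg (by positivity), lt_div_iff₀ hk0] at hk1
    have : (a : ℚ) ≤ C * (k : ℚ) ^ D := by exact_mod_cast hle
    linarith
  let φ : Polynomial ℚ → (Fin (D + 1) → ℚ) := fun p i => p.eval ((i : ℕ) + 1 : ℕ)
  apply Set.Finite.of_finite_image (f := φ)
  · apply Set.Finite.subset (Set.Finite.pi' (fun i : Fin (D + 1) =>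
      (Set.finite_Iic (C * ((i : ℕ) + 1) ^ D)).image (fun a : ℕ => (a : ℚ))))
    rintro _ ⟨p, hp, rfl⟩ i
    obtain ⟨a, ha, hle⟩ := hp ((i : ℕ) + 1) (by omega)
    exact ⟨a, hle, ha.symm⟩
  · intro p hp q hq h
    have hd : (p - q).degree ≤ D :=
      (Polynomial.degree_sub_le p q).trans (max_le (hdeg p hp) (hdeg q hq))
    have : p - q = 0 := by
      apply Polynomial.eq_zero_of_natDegree_lt_card_of_eval_eq_zero (p - q)
        (f := fun i : Fin (D + 1) => (((i : ℕ) + 1 : ℕ) : ℚ))
      · intro i j hij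
        simp only at hij
        have : (i : ℕ) + 1 = (j : ℕ) + 1 := by exact_mod_cast hij
        exact Fin.ext (by omega)
      · intro i
        have := congrFun h i
        simp only [φ] at this
        rw [Polynomial.eval_sub, this, sub_self]
      · have := Polynomial.natDegree_le_of_degree_le hd
        simp only [Fintype.card_fin]
        omega
    exact sub_eq_zero.mp this

end Pool.Agent.H.MP_62af7b_co
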