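import Mathlib

set_option autoImplicit false

namespace Pool.Agent.H.MP_62af7b_co

open Finset

def ps (f : ℕ → ℕ) (t : ℕ) : ℕ := ∑ i ∈ range t, f i

def Inter (l m : ℕ → ℕ) : Prop := ∀ i, m i ≤ l i ∧ l (i + 1) ≤ m i

structure IsGT (n : ℕ) (l nu : ℕ → ℕ) (x : ℕ → ℕ → ℕ) : Prop where
  z : ∀ i, x 0 i = 0
  int : ∀ j, Inter (x (j + 1)) (x j)
  top : ∀ j, n ≤ j → x j = l
  sum : ∀ j, j ≤ n → ps (x j) j = ps nu j

/-- Gelfand-Tsetlin patterns with `n` levels, top row `l` and weight `nu`. -/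
def GT (n : ℕ) (l nu : ℕ → ℕ) : Set (ℕ → ℕ → ℕ) := {x | IsGT n l nu x}

lemma ps_succ (f : ℕ → ℕ) (t : ℕ) : ps f (t + 1) = ps f t + f t := Finset.sum_range_succ _ _

lemma ps_zero (f : ℕ → ℕ) : ps f 0 = 0 := by simp [ps]

lemma ps_add (f : ℕ → ℕ) (t s : ℕ) : ps f (t + s) = ps f t + ps (fun i => f (t + i)) s :=
  Finset.sum_range_add _ _ _

lemma ps_congr {f g : ℕ → ℕ} {t : ℕ} (h : ∀ i, i < t → f i = g i) : ps f t = ps g t :=
  Finset.sum_congr rfl fun i hi => h i (Finset.mem_range.mp hi)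

lemma ps_mono {f g : ℕ → ℕ} {t : ℕ} (h : ∀ i, i < t → f i ≤ g i) : ps f t ≤ ps g t :=
  Finset.sum_le_sum fun i hi => h i (Finset.mem_range.mp hi)

lemma ps_eq {f g : ℕ → ℕ} {t : ℕ} (h : ∀ i, i < t → f i ≤ g i) (e : ps g t ≤ ps f t) :
    ∀ i, i < t → f i = g i := by
  intro i hi
  by_contra hne
  have : ps f t < ps g t := Finset.sum_lt_sum (fun j hj => h j (Finset.mem_range.mp hj))
    ⟨i, Finset.mem_range.mpr hi, lt_of_le_of_ne (h i hi) hne⟩
  omega

section basic
variable {n : ℕ} {l nu : ℕ → ℕ} {x : ℕ → ℕ → ℕ}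

lemma IsGT.supp (h : IsGT n l nu x) : ∀ j i, j ≤ i → x j i = 0 := by
  intro j
  induction j with
  | zero => intro i _; exact h.z i
  | succ j ih =>
    intro i hi
    obtain ⟨i, rfl⟩ : ∃ i', i = i' + 1 := ⟨i - 1, by omega⟩
    have := (h.int j i).2
    have := ih i (by omega)
    omega

lemma IsGT.mono (h : IsGT n l nu x) (i : ℕ) : Monotone fun j => x j i :=
  monotone_nat_of_le_succ fun j => (h.int j i).1

lemma IsGT.le_top (h : IsGT n l nu x) (j i : ℕ) : x j i ≤ l i := by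
  have := h.mono i (le_max_left j n)
  simp only [h.top _ (le_max_right j n)] at this
  exact this

lemma IsGT.diag (h : IsGT n l nu x) (j i d : ℕ) : x (j + d) (i + d) ≤ x j i := by
  induction d with
  | zero => exact le_rfl
  | succ d ih => exact ((h.int (j + d) (i + d)).2).trans ih

lemma IsGT.low (h : IsGT n l nu x) (j i : ℕ) : l (i + (n - j)) ≤ x j i := by
  have := h.diag j i (n - j)
  rwa [h.top _ (by omega)] at this

lemma IsGT.anti (h : IsGT n l nu x) (j : ℕ) : Antitone (x j) :=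
  antitone_nat_of_succ_le fun i => ((h.int j (i + 1)).1).trans (h.int j i).2

end basic

lemma gt_finite (n : ℕ) (l nu : ℕ → ℕ) : (GT n l nu).Finite := by
  let φ : (ℕ → ℕ → ℕ) → (Fin n × Fin n → ℕ) := fun x p => x p.1 p.2
  apply Set.Finite.of_finite_image (f := φ)
  · apply Set.Finite.subset (Set.Finite.pi' (fun p : Fin n × Fin n => Set.finite_Iic (l p.2)))
    rintro _ ⟨x, hx, rfl⟩ p
    exact IsGT.le_top hx _ _
  · intro x hx y hy h
    funext j i
    rcases le_or_gt n j with hj | hj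
    · rw [hx.top j hj, hy.top j hj]
    rcases le_or_gt n i with hi | hi
    · rw [hx.supp j i (by omega), hy.supp j i (by omega)]
    exact congrFun h (⟨j, hj⟩, ⟨i, hi⟩)

structure Dom (n : ℕ) (l nu : ℕ → ℕ) : Prop where
  anti : Antitone l
  supp : ∀ i, n ≤ i → l i = 0
  tot : ps l n = ps nu n
  le : ∀ t, t ≤ n → ps nu t ≤ ps l t

lemma IsGT.dom {n : ℕ} {l nu : ℕ → ℕ} {x : ℕ → ℕ → ℕ} (h : IsGT n l nu x) : Dom n l nu := by
  have e := h.top n le_rfl
  refine ⟨e ▸ h.anti n, fun i hi => e ▸ h.supp n i hi, e ▸ h.sum n le_rfl, fun t ht => ?_⟩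
  rw [← h.sum t ht]
  exact ps_mono fun i _ => h.le_top t i

def ex (n : ℕ) (l : ℕ → ℕ) (x : ℕ → ℕ → ℕ) : ℕ → ℕ → ℕ := fun j => if j ≤ n then x j else l

lemma ex_mem {n : ℕ} {l mu nu : ℕ → ℕ} {x : ℕ → ℕ → ℕ} (hi : Inter l mu) (ha : Antitone l)
    (ht : ps l (n + 1) = ps nu (n + 1)) (h : IsGT n mu nu x) : IsGT (n + 1) l nu (ex n l x) := by
  refine ⟨fun i => by simp [ex, h.z], fun j => ?_, fun j hj => ?_, fun j hj => ?_⟩
  · rcases lt_trichotomy j n with c | c | c
    · simp only [ex, if_pos (show j + 1 ≤ n by omega), if_pos c.le]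
      exact h.int j
    · subst c
      simp only [ex, if_neg (show ¬ j + 1 ≤ j by omega), if_pos le_rfl, h.top j le_rfl]
      exact hi
    · simp only [ex, if_neg (show ¬ j + 1 ≤ n by omega), if_neg (show ¬ j ≤ n by omega)]
      exact fun i => ⟨le_rfl, ha (Nat.le_succ i)⟩
  · simp only [ex, if_neg (show ¬ j ≤ n by omega)]
  · rcases le_or_gt j n with c | c
    · simp only [ex, if_pos c]
      exact h.sum j c
    · obtain rfl : j = n + 1 := by omega
      simp only [ex, if_neg (show ¬ n + 1 ≤ n by omega)]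
      exact ht

lemma ex_inj (n : ℕ) (l mu nu : ℕ → ℕ) : Set.InjOn (ex n l) (GT n mu nu) := by
  intro x hx y hy h
  funext j
  rcases le_or_gt j n with c | c
  · have := congrFun h j
    simpa only [ex, if_pos c] using this
  · rw [hx.top j c.le, hy.top j c.le]

lemma card_child {n : ℕ} {l mu nu : ℕ → ℕ} (hi : Inter l mu) (ha : Antitone l)
    (ht : ps l (n + 1) = ps nu (n + 1)) : (GT n mu nu).ncard ≤ (GT (n + 1) l nu).ncard := by
  rw [← (ex_inj n l mu nu).ncard_image]
  apply Set.ncard_le_ncard _ (gt_finite _ _ _)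
  rintro _ ⟨x, hx, rfl⟩
  exact ex_mem hi ha ht hx

lemma card_child2 {n : ℕ} {l mu mu' nu : ℕ → ℕ} (hi : Inter l mu) (hi' : Inter l mu')
    (ha : Antitone l) (ht : ps l (n + 1) = ps nu (n + 1)) (hne : mu ≠ mu')
    (hy : (GT n mu' nu).Nonempty) : (GT n mu nu).ncard + 1 ≤ (GT (n + 1) l nu).ncard := by
  rw [← (ex_inj n l mu nu).ncard_image]
  apply Set.ncard_lt_ncard _ (gt_finite _ _ _)
  obtain ⟨y, hy⟩ := hy
  refine ⟨?_, fun hsub => ?_⟩
  · rintro _ ⟨x, hx, rfl⟩
    exact ex_mem hi ha ht hx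
  · obtain ⟨x, hx, e⟩ := hsub (ex_mem hi' ha ht hy)
    have := congrFun e n
    simp only [ex, if_pos le_rfl] at this
    rw [hx.top n le_rfl, hy.top n le_rfl] at this
    exact hne this

def st (l : ℕ → ℕ) (p w : ℕ) : ℕ → ℕ :=
  fun i => if i < p then l i else if i = p then l p + l (p + 1) - w else l (i + 1)

lemma st_lt (l : ℕ → ℕ) {p i : ℕ} (w : ℕ) (h : i < p) : st l p w i = l i := by simp [st, h]
lemma st_eq (l : ℕ → ℕ) (p w : ℕ) : st l p w p = l p + l (p + 1) - w := by simp [st]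
lemma st_gt (l : ℕ → ℕ) {p i : ℕ} (w : ℕ) (h : p < i) : st l p w i = l (i + 1) := by
  simp [st, h.ne', not_lt.mpr h.le]

lemma st_inter {l : ℕ → ℕ} {p w : ℕ} (ha : Antitone l) (h1 : l (p + 1) ≤ w) (h2 : w ≤ l p) :
    Inter l (st l p w) := by
  intro i
  have := ha (Nat.le_succ i)
  rcases lt_trichotomy i p with c | c | c
  · rw [st_lt l w c]; exact ⟨le_rfl, this⟩
  · subst c; rw [st_eq]; omega
  · rw [st_gt l w c]; exact ⟨this, le_rfl⟩

lemma ps_st_le (l : ℕ → ℕ) {p t : ℕ} (w : ℕ) (h : t ≤ p) : ps (st l p w) t = ps l t :=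
  ps_congr fun i hi => st_lt l w (by omega)

lemma ps_st_gt {l : ℕ → ℕ} {p t w : ℕ} (h2 : w ≤ l p) (h : p < t) :
    ps (st l p w) t + w = ps l (t + 1) := by
  induction t, h using Nat.le_induction with
  | base =>
    rw [ps_succ, ps_st_le l w le_rfl, st_eq, ps_succ, ps_succ]
    omega
  | succ t ht ih =>
    rw [ps_succ, st_gt l w ht, ps_succ l (t + 1)]
    omega

lemma Inter.anti {l mu : ℕ → ℕ} (h : Inter l mu) : Antitone mu :=
  antitone_nat_of_succ_le fun i => ((h (i + 1)).1).trans (h i).2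

lemma exists_p {n : ℕ} {l nu : ℕ → ℕ} (h : Dom (n + 1) l nu) (hn : 1 ≤ n) (hnu : Antitone nu) :
    ∃ p, p < n ∧ l (p + 1) ≤ nu n ∧ nu n ≤ l p ∧ (l n < nu n → l (p + 1) < nu n) := by
  classical
  have hex : ∃ p, l (p + 1) < nu n ∨ p + 1 = n := ⟨n - 1, Or.inr (by omega)⟩
  have h1 := Nat.find_spec hex
  have h2 : Nat.find hex ≤ n - 1 := Nat.find_min' hex (Or.inr (by omega))
  have h3 : l n ≤ nu n := by
    have a := h.tot
    have b := h.le n (by omega)
    rw [ps_succ, ps_succ] at a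
    omega
  refine ⟨Nat.find hex, by omega, ?_, ?_, ?_⟩
  · rcases h1 with h1 | h1
    · exact h1.le
    · rw [h1]; exact h3
  · rcases Nat.eq_zero_or_pos (Nat.find hex) with c | c
    · rw [c]
      have a := h.le 1 (by omega)
      have b := hnu (Nat.zero_le n)
      simp only [ps, Finset.sum_range_one] at a
      omega
    · have := Nat.find_min hex (show Nat.find hex - 1 < Nat.find hex by omega)
      push Not at this
      have e : Nat.find hex - 1 + 1 = Nat.find hex := by omega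
      rw [e] at this
      exact this.1
  · intro hl
    rcases h1 with h1 | h1
    · exact h1
    · rw [h1]; exact hl

lemma st_dom {n p : ℕ} {l nu : ℕ → ℕ} (h : Dom (n + 1) l nu) (hnu : Antitone nu) (hp : p < n)
    (h1 : l (p + 1) ≤ nu n) (h2 : nu n ≤ l p) : Dom n (st l p (nu n)) nu := by
  refine ⟨(st_inter h.anti h1 h2).anti, fun i hi => ?_, ?_, fun t ht => ?_⟩
  · rw [st_gt l _ (by omega)]
    exact h.supp _ (by omega)
  · have a := ps_st_gt h2 hp
    have b := h.tot
    rw [ps_succ nu] at b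
    omega
  · rcases le_or_gt t p with c | c
    · rw [ps_st_le l _ c]
      exact h.le t (by omega)
    · have a := ps_st_gt h2 c
      have b := h.le (t + 1) (by omega)
      have d := hnu ht
      rw [ps_succ nu] at b
      omega

lemma gt_nonempty {nu : ℕ → ℕ} (hnu : Antitone nu) :
    ∀ (n : ℕ) (l : ℕ → ℕ), Dom n l nu → (GT n l nu).Nonempty := by
  intro n
  induction n with
  | zero =>
    intro l h
    refine ⟨fun _ _ => 0, fun _ => rfl, fun _ _ => ⟨le_rfl, le_rfl⟩, fun j _ => ?_, fun j hj => ?_⟩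
    · funext i
      exact (h.supp i (Nat.zero_le i)).symm
    · obtain rfl : j = 0 := by omega
      simp [ps]
  | succ n ih =>
    intro l h
    rcases Nat.eq_zero_or_pos n with c | c
    · subst c
      obtain ⟨x, hx⟩ := ih (fun _ => 0) ⟨antitone_const, fun _ _ => rfl, by simp [ps],
        fun t ht => by obtain rfl : t = 0 := by omega
                       simp [ps]⟩
      exact ⟨_, ex_mem (fun i => ⟨Nat.zero_le _, (h.supp _ (by omega)).le⟩) h.anti h.tot hx⟩
    · obtain ⟨p, hp, h1, h2, -⟩ := exists_p h c hnu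
      obtain ⟨x, hx⟩ := ih _ (st_dom h hnu hp h1 h2)
      exact ⟨_, ex_mem (st_inter h.anti h1 h2) h.anti h.tot hx⟩

/-- shapes with a unique pattern -/
lemma gt_subsingleton {n : ℕ} {l : ℕ → ℕ} (nu : ℕ → ℕ)
    (h : l 1 ≤ l (n - 1) ∨ l 0 ≤ l (n - 2)) : (GT n l nu).Subsingleton := by
  intro x hx y hy
  have ha := hx.dom.anti
  funext j
  rcases le_or_gt n j with hj | hj
  · rw [hx.top j hj, hy.top j hj]
  have hs : ps (x j) j = ps (y j) j := by rw [hx.sum j hj.le, hy.sum j hj.le]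
  rcases Nat.eq_zero_or_pos j with c | c
  · subst c
    funext i
    rw [hx.z, hy.z]
  obtain ⟨j, rfl⟩ : ∃ j', j = j' + 1 := ⟨j - 1, by omega⟩
  rcases h with h | h
  · have key : ∀ z : ℕ → ℕ → ℕ, IsGT n l nu z → ∀ i, i < j → z (j + 1) (i + 1) = l 1 := by
      intro z hz i hi
      have a := hz.low (j + 1) (i + 1)
      have b := hz.le_top (j + 1) (i + 1)
      have c := ha (show 1 ≤ i + 1 by omega)
      have d := ha (show i + 1 + (n - (j + 1)) ≤ n - 1 by omega)
      omega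
    funext i
    rcases le_or_gt (j + 1) i with c | c
    · rw [hx.supp _ _ c, hy.supp _ _ c]
    rcases Nat.eq_zero_or_pos i with d | d
    · subst d
      simp only [ps, Finset.sum_range_succ'] at hs
      have : ∑ k ∈ range j, x (j + 1) (k + 1) = ∑ k ∈ range j, y (j + 1) (k + 1) :=
        Finset.sum_congr rfl fun k hk => by
          rw [key x hx k (Finset.mem_range.mp hk), key y hy k (Finset.mem_range.mp hk)]
      omega
    · obtain ⟨i, rfl⟩ : ∃ i', i = i' + 1 := ⟨i - 1, by omega⟩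
      rw [key x hx i (by omega), key y hy i (by omega)]
  · have key : ∀ z : ℕ → ℕ → ℕ, IsGT n l nu z → ∀ i, i < j → z (j + 1) i = l 0 := by
      intro z hz i hi
      have a := hz.low (j + 1) i
      have b := hz.le_top (j + 1) i
      have c := ha (Nat.zero_le i)
      have d := ha (show i + (n - (j + 1)) ≤ n - 2 by omega)
      omega
    funext i
    rcases lt_trichotomy i j with c | c | c
    · rw [key x hx i c, key y hy i c]
    · subst c
      rw [ps_succ, ps_succ] at hs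
      have : ps (x (i + 1)) i = ps (y (i + 1)) i :=
        ps_congr fun k hk => by rw [key x hx k hk, key y hy k hk]
      omega
    · rw [hx.supp _ _ c, hy.supp _ _ c]

end Pool.Agent.H.MP_62af7b_co
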