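import Pool.Agent.H.MP_62af7b_co.B

set_option autoImplicit false

namespace Pool.Agent.H.MP_62af7b_co

open Finset

structure Prim (n : ℕ) (l nu : ℕ → ℕ) : Prop where
  dom : Dom n l nu
  lt : ∀ t, 0 < t → t < n → ps nu t < ps l t

def mv (mu : ℕ → ℕ) (a b : ℕ) : ℕ → ℕ :=
  fun i => if i = a then mu i - 1 else if i = b then mu i + 1 else mu i

lemma mv_a (mu : ℕ → ℕ) (a b : ℕ) : mv mu a b a = mu a - 1 := by simp [mv]
lemma mv_b (mu : ℕ → ℕ) {a b : ℕ} (h : a < b) : mv mu a b b = mu b + 1 := by simp [mv, h.ne']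
lemma mv_o (mu : ℕ → ℕ) {a b i : ℕ} (h : i ≠ a) (h' : i ≠ b) : mv mu a b i = mu i := by
  simp [mv, h, h']

lemma ps_mv {mu : ℕ → ℕ} {a b : ℕ} (hab : a < b) (h1 : 1 ≤ mu a) (t : ℕ) :
    (t ≤ a → ps (mv mu a b) t = ps mu t) ∧ (a < t → t ≤ b → ps (mv mu a b) t + 1 = ps mu t) ∧
      (b < t → ps (mv mu a b) t = ps mu t) := by
  induction t with
  | zero => simp [ps]
  | succ t ih =>
    rw [ps_succ, ps_succ]
    by_cases c : t = a
    · subst c
      rw [mv_a]
      omega
    by_cases d : t = b
    · subst d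
      rw [mv_b mu hab]
      omega
    rw [mv_o mu c d]
    omega

lemma mv_inter {l mu : ℕ → ℕ} {a b : ℕ} (h : Inter l mu) (hab : a < b) (h1 : l (a + 1) < mu a)
    (h2 : mu b < l b) : Inter l (mv mu a b) := by
  intro i
  have := h i
  by_cases c : i = a
  · subst c
    rw [mv_a]
    omega
  by_cases d : i = b
  · subst d
    rw [mv_b mu hab]
    omega
  rw [mv_o mu c d]
  exact this

lemma mv_dom {n : ℕ} {l mu nu : ℕ → ℕ} {a b : ℕ} (h : Prim n mu nu) (hab : a < b) (hb : b < n)
    (h1 : 1 ≤ mu a) (hi : Inter l (mv mu a b)) : Dom n (mv mu a b) nu := by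
  refine ⟨hi.anti, fun i hi => ?_, ?_, fun t ht => ?_⟩
  · rw [mv_o mu (by omega) (by omega)]
    exact h.dom.supp i hi
  · rw [(ps_mv hab h1 n).2.2 hb]
    exact h.dom.tot
  · have e := ps_mv hab h1 t
    have f := h.dom.le t ht
    have g := h.lt t
    omega

lemma mv_ne {mu : ℕ → ℕ} {a b : ℕ} (hab : a < b) : mv mu a b ≠ mu := by
  intro h
  have := congrFun h b
  rw [mv_b mu hab] at this
  omega

lemma st_prim {n p : ℕ} {l nu : ℕ → ℕ} (h : Prim (n + 1) l nu) (hnu : Antitone nu) (hp : p < n)
    (h1 : l (p + 1) ≤ nu n) (h2 : nu n ≤ l p) : Prim n (st l p (nu n)) nu := by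
  refine ⟨st_dom h.dom hnu hp h1 h2, fun t h0 ht => ?_⟩
  rcases le_or_gt t p with c | c
  · rw [ps_st_le l _ c]
    exact h.lt t h0 (by omega)
  · have a := ps_st_gt h2 c
    have b := h.lt (t + 1) (by omega) (by omega)
    have d := hnu ht.le
    rw [ps_succ nu] at b
    omega

lemma Prim.last {n : ℕ} {l nu : ℕ → ℕ} (h : Prim (n + 1) l nu) (hn : 1 ≤ n) : l n < nu n := by
  have a := h.dom.tot
  have b := h.lt n hn (by omega)
  rw [ps_succ, ps_succ] at a
  omega

lemma Prim.first {n : ℕ} {l nu : ℕ → ℕ} (h : Prim n l nu) (hn : 2 ≤ n) : nu 0 < l 0 := by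
  have b := h.lt 1 (by omega) (by omega)
  simpa [ps] using b

lemma exists_drop {l : ℕ → ℕ} {i j : ℕ} (hij : i ≤ j) (h : l j < l i) :
    ∃ a, i ≤ a ∧ a < j ∧ l (a + 1) < l a := by
  induction j, hij using Nat.le_induction with
  | base => omega
  | succ j hj ih =>
    by_cases c : l (j + 1) < l j
    · exact ⟨j, hj, by omega, c⟩
    · obtain ⟨a, h1, h2, h3⟩ := ih (by omega)
      exact ⟨a, h1, by omega, h3⟩

lemma ps_add_one (f : ℕ → ℕ) (s : ℕ) : ps (fun i => f i + 1) s = ps f s + s := by
  simp [ps, Finset.sum_add_distrib]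

lemma second_child {n p : ℕ} {l nu : ℕ → ℕ} (h : Prim (n + 1) l nu) (hnu : Antitone nu)
    (hp : p < n) (h1 : l (p + 1) < nu n) (h2 : nu n ≤ l p)
    (h3 : ∃ q, l q < l 0 ∧ l n < l q) :
    ∃ a b, a < b ∧ b < n ∧ l (a + 1) < st l p (nu n) a ∧ st l p (nu n) b < l b := by
  obtain ⟨q, hq1, hq2⟩ := h3
  by_cases c : l p < l 0
  · obtain ⟨a, -, ha, ha'⟩ := exists_drop (Nat.zero_le p) c
    refine ⟨a, p, ha, hp, ?_, ?_⟩
    · rw [st_lt l _ ha]; exact ha'
    · rw [st_eq]; omega
  · have f := h.first (by omega)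
    have g := hnu (Nat.zero_le n)
    have hqp : p < q := by
      by_contra hc
      have := h.dom.anti (show q ≤ p by omega)
      omega
    have := h.dom.anti (show p + 1 ≤ q by omega)
    obtain ⟨b, hb1, hb2, hb3⟩ := exists_drop (l := l) (show p + 1 ≤ n by omega) (by omega)
    refine ⟨p, b, by omega, hb2, ?_, ?_⟩
    · rw [st_eq]; omega
    · rw [st_gt l _ (by omega)]; exact hb3

lemma child_nt {r : ℕ} {l nu : ℕ → ℕ} (h : Prim (r + 4) l nu) (hnu : Antitone nu)
    (h3 : ∃ q, l q < l 0 ∧ l (r + 3) < l q) :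
    ∃ mu mu', Inter l mu ∧ Inter l mu' ∧ mu ≠ mu' ∧ Prim (r + 3) mu nu ∧
      (mu (r + 2) < mu 1 ∧ mu (r + 1) < mu 0) ∧ Dom (r + 3) mu' nu := by
  have ha := h.dom.anti
  have nt : l (r + 3) < l 1 ∧ l (r + 2) < l 0 := by
    obtain ⟨q, hq1, hq2⟩ := h3
    have q0 : 1 ≤ q := by
      by_contra hc
      obtain rfl : q = 0 := by omega
      omega
    have q1 : q ≤ r + 2 := by
      by_contra hc
      have := ha (show r + 3 ≤ q by omega)
      omega
    have := ha q0
    have := ha q1
    omega
  obtain ⟨p, hp, h1, h2, h1'⟩ := exists_p h.dom (by omega) hnu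
  have hlast := h.last (by omega)
  have h1s := h1' hlast
  have hfirst := h.first (by omega)
  have hw := hnu (Nat.zero_le (r + 3))
  have hI := st_inter ha h1 h2
  have hP := st_prim h hnu hp h1 h2
  have hm := hI.anti
  have e0 := st_eq l p (nu (r + 3))
  set mu := st l p (nu (r + 3)) with hmu
  by_cases c1 : mu 1 ≤ mu (r + 2)
  · have f1 : mu 1 = l (r + 3) ∧ l 1 ≤ nu (r + 3) := by
      rcases lt_trichotomy p 1 with c | c | c
      · obtain rfl : p = 0 := by omega
        have a := st_gt l (nu (r + 3)) (show 0 < r + 2 by omega)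
        have b := hm (show 1 ≤ r + 2 by omega)
        rw [← hmu] at a
        simp only [zero_add] at h1s
        change mu (r + 2) = l (r + 3) at a
        omega
      · subst c
        have a := st_gt l (nu (r + 3)) (show 1 < r + 2 by omega)
        have b := ha (show 1 + 1 ≤ r + 3 by omega)
        rw [← hmu] at a
        change mu (r + 2) = l (r + 3) at a
        omega
      · exfalso
        have a := st_lt l (nu (r + 3)) c
        have b := ha c.le
        have d := hm (show p ≤ r + 2 by omega)
        rw [← hmu] at a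
        omega
    have f2 : nu 0 + 2 ≤ mu 0 := by
      have a := hP.dom.tot
      rw [show r + 3 = 1 + (r + 2) by omega, ps_add mu 1 (r + 2), ps_add nu 1 (r + 2)] at a
      have b : ps (fun i => mu (1 + i) + 1) (r + 2) ≤ ps (fun i => nu (1 + i)) (r + 2) := by
        apply ps_mono
        intro i hi
        have := hm (show 1 ≤ 1 + i by omega)
        have := hnu (show 1 + i ≤ r + 3 by omega)
        omega
      rw [ps_add_one] at b
      have u1 : ps mu 1 = mu 0 := by simp [ps]
      have u2 : ps nu 1 = nu 0 := by simp [ps]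
      omega
    have hI' := mv_inter hI (show 0 < 1 by omega) (by simp only [zero_add]; omega) (by omega)
    have hD := mv_dom hP (show 0 < 1 by omega) (by omega) (by omega) hI'
    refine ⟨mv mu 0 1, mu, hI', hI, mv_ne (by omega), ⟨hD, fun t h0 ht => ?_⟩, ⟨?_, ?_⟩, hP.dom⟩
    · have e := ps_mv (mu := mu) (show 0 < 1 by omega) (by omega) t
      have g := hP.lt t h0 ht
      rcases eq_or_ne t 1 with rfl | c
      · simp only [ps, Finset.sum_range_one, mv_a]
        omega
      · omega
    · rw [mv_b mu (by omega), mv_o mu (by omega) (by omega)]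
      have := hm (show 1 ≤ r + 2 by omega)
      omega
    · have a := hI'.anti (show 1 ≤ r + 1 by omega)
      rw [mv_b mu (by omega)] at a
      rw [mv_a]
      omega
  by_cases c2 : mu 0 ≤ mu (r + 1)
  · have f1 : p = r + 2 := by
      by_contra hc
      have d := hm (show p ≤ r + 1 by omega)
      rcases Nat.eq_zero_or_pos p with c | c
      · subst c
        have a := st_gt l (nu (r + 3)) (show 0 < r + 1 by omega)
        have b := ha (show 0 + 1 ≤ r + 1 + 1 by omega)
        rw [← hmu] at a
        omega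
      · have a := st_lt l (nu (r + 3)) c
        have b := ha (Nat.zero_le p)
        rw [← hmu] at a
        omega
    subst f1
    have f2 : mu 0 = l 0 := st_lt l _ (by omega)
    have f3 : ∀ i, i < r + 2 → mu i = l 0 := by
      intro i hi
      have := hm (Nat.zero_le i)
      have := hm (show i ≤ r + 1 by omega)
      omega
    have f4 := f3 (r + 1) (by omega)
    have hI' := mv_inter hI (show r + 1 < r + 2 by omega)
      (by change l (r + 2) < _; omega) (by omega)
    have hD := mv_dom hP (show r + 1 < r + 2 by omega) (by omega) (by omega) hI'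
    have hP' : Prim (r + 3) (mv mu (r + 1) (r + 2)) nu := by
      refine ⟨hD, fun t h0 ht => ?_⟩
      have e := ps_mv (mu := mu) (show r + 1 < r + 2 by omega) (by omega) t
      have g := hP.lt t h0 ht
      rcases eq_or_ne t (r + 2) with rfl | c
      · have b : ps (fun i => nu i + 1) (r + 2) ≤ ps mu (r + 2) := by
          apply ps_mono
          intro i hi
          have := hnu (Nat.zero_le i)
          have := f3 i hi
          omega
        rw [ps_add_one] at b
        omega
      · omega
    refine ⟨_, mu, hI', hI, mv_ne (by omega), hP', ⟨?_, ?_⟩, hP.dom⟩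
    · have a := hP'.last (by omega)
      have b := hnu (Nat.zero_le (r + 2))
      have d := hI'.anti (show 1 ≤ r + 1 by omega)
      rw [mv_a] at d
      omega
    · rw [mv_a, mv_o mu (by omega) (by omega)]
      omega
  obtain ⟨a, b, hab, hb, ha1, hb1⟩ := second_child h hnu hp h1s h2 h3
  have hI' := mv_inter hI hab ha1 hb1
  exact ⟨mu, mv mu a b, hI, hI', (mv_ne hab).symm, hP, ⟨by omega, by omega⟩,
    mv_dom hP hab hb (by rw [← hmu] at ha1; omega) hI'⟩

theorem lower {nu : ℕ → ℕ} (hnu : Antitone nu) : ∀ (n : ℕ) (l : ℕ → ℕ), Prim n l nu →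
    ((∃ q, l q < l 0 ∧ l (n - 1) < l q) → n + 1 ≤ 2 * (GT n l nu).ncard) ∧
    ((l (n - 1) < l 1 ∧ l (n - 2) < l 0) → n ≤ 2 * (GT n l nu).ncard) := by
  intro n
  induction n with
  | zero =>
    intro l h
    refine ⟨?_, fun _ => Nat.zero_le _⟩
    rintro ⟨q, h1, h2⟩
    simp only [Nat.zero_sub] at h2
    omega
  | succ n ih =>
    intro l h
    have ha := h.dom.anti
    simp only [Nat.add_sub_cancel]
    have three : (∃ q, l q < l 0 ∧ l n < l q) → n + 1 + 1 ≤ 2 * (GT (n + 1) l nu).ncard := by
      intro h3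
      have hn : 2 ≤ n := by
        obtain ⟨q, hq1, hq2⟩ := h3
        have q0 : 1 ≤ q := by
          by_contra hc
          obtain rfl : q = 0 := by omega
          omega
        by_contra hc
        have := ha (show n ≤ q by omega)
        omega
      rcases eq_or_lt_of_le hn with c | c
      · obtain ⟨p, hp, h1, h2, h1'⟩ := exists_p h.dom (by omega) hnu
        have h1s := h1' (h.last (by omega))
        have hI := st_inter ha h1 h2
        have hP := st_prim h hnu hp h1 h2
        obtain ⟨a, b, hab, hb, ha1, hb1⟩ := second_child h hnu hp h1s h2 h3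
        have hI' := mv_inter hI hab ha1 hb1
        have hD := mv_dom hP hab hb (by omega) hI'
        have k1 := card_child2 hI hI' ha h.dom.tot (mv_ne hab).symm (gt_nonempty hnu _ _ hD)
        have k2 := (Set.ncard_pos (gt_finite _ _ _)).mpr (gt_nonempty hnu _ _ hP.dom)
        omega
      · obtain ⟨r, rfl⟩ : ∃ r, n = r + 3 := ⟨n - 3, by omega⟩
        obtain ⟨mu, mu', hI, hI', hne, hP, hnt, hD⟩ := child_nt h hnu h3
        have k1 := card_child2 hI hI' ha h.dom.tot hne (gt_nonempty hnu _ _ hD)
        have k2 := (ih mu hP).2 hnt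
        omega
    refine ⟨three, fun hnt => ?_⟩
    by_cases h3 : ∃ q, l q < l 0 ∧ l n < l q
    · have := three h3
      omega
    push Not at h3
    have e2 : n + 1 - 2 = n - 1 := by omega
    rw [e2] at hnt
    have hn : 2 ≤ n := by
      by_contra hc
      have := ha (show n ≤ 1 by omega)
      omega
    obtain ⟨p, hp, h1, h2, h1'⟩ := exists_p h.dom (by omega) hnu
    have hlast := h.last (by omega)
    have h1s := h1' hlast
    have hfirst := h.first (by omega)
    have hw := hnu (Nat.zero_le n)
    have hI := st_inter ha h1 h2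
    have hP := st_prim h hnu hp h1 h2
    have a1 := h3 p
    have a2 := h3 (p + 1)
    have a3 := h3 1
    have a4 := ha (Nat.zero_le p)
    have a5 := ha (show p + 1 ≤ n by omega)
    have p0 : 0 < p := by
      by_contra hc
      obtain rfl : p = 0 := by omega
      simp only [zero_add] at *
      omega
    have p1 : p < n - 1 := by
      by_contra hc
      obtain rfl : p = n - 1 := by omega
      omega
    have k1 := card_child (nu := nu) hI ha h.dom.tot
    have k2 := (ih _ hP).1 ⟨p, by rw [st_eq, st_lt l _ p0]; omega, by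
      rw [st_eq, st_gt l _ p1, show n - 1 + 1 = n by omega]; omega⟩
    omega

end Pool.Agent.H.MP_62af7b_co
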