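import Pool.Agent.H.MP_62af7b_co.A
import Pool.Agent.H.MP_62af7b_co.C

set_option autoImplicit false

namespace Pool.Agent.H.MP_62af7b_co

open Finset

def tr (t : ℕ) (l : ℕ → ℕ) : ℕ → ℕ := fun i => if i < t then l i else 0
def sh (t : ℕ) (l : ℕ → ℕ) : ℕ → ℕ := fun i => l (t + i)

section split
variable {t s : ℕ} {l nu : ℕ → ℕ}

lemma split_fix {x : ℕ → ℕ → ℕ} (h : IsGT (t + s) l nu x) (e : ps l t = ps nu t) {j i : ℕ}
    (hj : t ≤ j) (hi : i < t) : x j i = l i := by
  have a := ps_eq (f := x t) (g := l) (t := t) (fun i _ => h.le_top t i)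
    (by rw [h.sum t (by omega), e]) i hi
  have b := h.mono i hj
  have c := h.le_top j i
  simp only at b
  omega

lemma split_fst {x : ℕ → ℕ → ℕ} (h : IsGT (t + s) l nu x) (e : ps l t = ps nu t) :
    IsGT t (tr t l) nu (fun j => x (min j t)) := by
  refine ⟨fun i => by simpa using h.z i, fun j => ?_, fun j hj => ?_, fun j hj => ?_⟩
  · rcases lt_or_ge j t with c | c
    · rw [min_eq_left c, min_eq_left c.le]
      exact h.int j
    · rw [min_eq_right c, min_eq_right (show t ≤ j + 1 by omega)]
      exact fun i => ⟨le_rfl, h.anti t (Nat.le_succ i)⟩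
  · rw [min_eq_right hj]
    funext i
    by_cases c : i < t
    · simp only [tr, if_pos c]
      exact split_fix h e le_rfl c
    · simp only [tr, if_neg c]
      exact h.supp t i (by omega)
  · rw [min_eq_left hj]
    exact h.sum j (by omega)

lemma split_snd {x : ℕ → ℕ → ℕ} (h : IsGT (t + s) l nu x) (e : ps l t = ps nu t) :
    IsGT s (sh t l) (sh t nu) (fun j => sh t (x (t + j))) := by
  refine ⟨fun i => h.supp _ _ (by omega), fun j i => h.int (t + j) (t + i), fun j hj => ?_,
    fun j hj => ?_⟩
  · rw [h.top (t + j) (by omega)]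
  · have a := h.sum (t + j) (by omega)
    rw [ps_add, ps_add] at a
    have b : ps (x (t + j)) t = ps l t := ps_congr fun i hi => split_fix h e (by omega) hi
    change ps (fun i => x (t + j) (t + i)) j = ps (fun i => nu (t + i)) j
    omega

lemma split_le (e : ps l t = ps nu t) :
    (GT (t + s) l nu).ncard ≤ (GT t (tr t l) nu).ncard * (GT s (sh t l) (sh t nu)).ncard := by
  rw [← Set.ncard_prod]
  apply Set.ncard_le_ncard_of_injOn
    (fun x => ((fun j => x (min j t)), (fun j => sh t (x (t + j)))))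
    (fun x hx => Set.mk_mem_prod (split_fst hx e) (split_snd hx e)) _ ((gt_finite _ _ _).prod (gt_finite _ _ _))
  intro x hx y hy h
  obtain ⟨h1, h2⟩ := Prod.mk.inj h
  funext j i
  rcases le_or_gt j t with c | c
  · have := congrFun h1 j
    simp only [min_eq_left c] at this
    rw [this]
  · rcases lt_or_ge i t with d | d
    · rw [split_fix hx e c.le d, split_fix hy e c.le d]
    · have := congrFun (congrFun h2 (j - t)) (i - t)
      simp only [sh] at this
      rwa [show t + (j - t) = j by omega, show t + (i - t) = i by omega] at this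

def gl (t : ℕ) (x y : ℕ → ℕ → ℕ) : ℕ → ℕ → ℕ :=
  fun j i => if i < t then x j i else y (j - t) (i - t)

lemma gl_mem {x y : ℕ → ℕ → ℕ} (ha : Antitone l) (e : ps l t = ps nu t)
    (hx : IsGT t (tr t l) nu x) (hy : IsGT s (sh t l) (sh t nu) y) :
    IsGT (t + s) l nu (gl t x y) := by
  refine ⟨fun i => ?_, fun j i => ⟨?_, ?_⟩, fun j hj => ?_, fun j hj => ?_⟩
  · simp only [gl, hx.z, Nat.zero_sub, hy.z, ite_self]
  · by_cases c : i < t
    · simp only [gl, if_pos c]
      exact (hx.int j i).1
    · simp only [gl, if_neg c]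
      exact hy.mono _ (by omega)
  · by_cases c : i + 1 < t
    · simp only [gl, if_pos c, if_pos (show i < t by omega)]
      exact (hx.int j i).2
    rcases lt_or_ge j t with d | d
    · simp only [gl, if_neg c, show j + 1 - t = 0 by omega, hy.z]
      exact Nat.zero_le _
    by_cases f : i < t
    · simp only [gl, if_neg c, if_pos f, hx.top j d, tr]
      refine (hy.le_top _ _).trans (ha ?_)
      omega
    · simp only [gl, if_neg c, if_neg f]
      rw [show j + 1 - t = j - t + 1 by omega, show i + 1 - t = i - t + 1 by omega]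
      exact (hy.int _ _).2
  · funext i
    by_cases c : i < t
    · simp only [gl, if_pos c, hx.top j (by omega), tr]
    · simp only [gl, if_neg c, hy.top (j - t) (by omega), sh]
      rw [show t + (i - t) = i by omega]
  · rcases le_or_gt j t with c | c
    · rw [← hx.sum j c]
      exact ps_congr fun i hi => by simp only [gl, if_pos (show i < t by omega)]
    · obtain ⟨d, rfl⟩ : ∃ d, j = t + d := ⟨j - t, by omega⟩
      rw [ps_add, ps_add]
      have a : ps (gl t x y (t + d)) t = ps l t :=
        ps_congr fun i hi => by simp only [gl, if_pos hi, hx.top (t + d) (by omega), tr]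
      have b : ps (fun i => gl t x y (t + d) (t + i)) d = ps (y d) d :=
        ps_congr fun i _ => by simp [gl]
      have f := hy.sum d (by omega)
      change _ = ps (fun i => nu (t + i)) d at f
      omega

lemma split_ge (ha : Antitone l) (e : ps l t = ps nu t) :
    (GT t (tr t l) nu).ncard * (GT s (sh t l) (sh t nu)).ncard ≤ (GT (t + s) l nu).ncard := by
  rw [← Set.ncard_prod]
  apply Set.ncard_le_ncard_of_injOn (fun p => gl t p.1 p.2)
    (fun p hp => gl_mem ha e hp.1 hp.2) _ (gt_finite _ _ _)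
  rintro ⟨x, y⟩ ⟨hx, -⟩ ⟨x', y'⟩ ⟨hx', -⟩ h
  simp only at h hx hx'
  refine Prod.ext ?_ ?_
  · funext j i
    by_cases c : i < t
    · have := congrFun (congrFun h j) i
      simpa only [gl, if_pos c] using this
    · have a := IsGT.le_top hx j i
      have b := IsGT.le_top hx' j i
      simp only [tr, if_neg c] at a b
      simp only
      omega
  · funext j i
    have := congrFun (congrFun h (t + j)) (t + i)
    simpa [gl] using this

end split

def sc (k : ℕ) (l : ℕ → ℕ) : ℕ → ℕ := fun i => k * l i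

lemma ps_sc (k : ℕ) (l : ℕ → ℕ) (t : ℕ) : ps (sc k l) t = k * ps l t := by
  simp [ps, sc, Finset.mul_sum]

lemma Dom.of_sc {n k : ℕ} {l nu : ℕ → ℕ} (hk : 1 ≤ k) (h : Dom n (sc k l) (sc k nu)) :
    Dom n l nu := by
  refine ⟨fun i j hij => Nat.le_of_mul_le_mul_left (h.anti hij) hk, fun i hi => ?_, ?_,
    fun t ht => ?_⟩
  · have := h.supp i hi
    simp only [sc, mul_eq_zero] at this
    omega
  · have := h.tot
    rw [ps_sc, ps_sc] at this
    exact Nat.eq_of_mul_eq_mul_left hk this
  · have := h.le t ht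
    rw [ps_sc, ps_sc] at this
    exact Nat.le_of_mul_le_mul_left this hk

def W (n : ℕ) : AddSubgroup (ℕ → ℕ → ℤ) where
  carrier := {y | (∀ j i, n ≤ j → y j i = 0) ∧ (∀ j i, j ≤ i → y j i = 0) ∧
    ∀ j, ∑ i ∈ range j, y j i = 0}
  zero_mem' := ⟨fun _ _ _ => rfl, fun _ _ _ => rfl, fun _ => by simp⟩
  add_mem' := by
    rintro a b ⟨a1, a2, a3⟩ ⟨b1, b2, b3⟩
    refine ⟨fun j i h => by simp [a1 j i h, b1 j i h], fun j i h => by simp [a2 j i h, b2 j i h],
      fun j => ?_⟩
    simp [Finset.sum_add_distrib, a3 j, b3 j]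
  neg_mem' := by
    rintro a ⟨a1, a2, a3⟩
    refine ⟨fun j i h => by simp [a1 j i h], fun j i h => by simp [a2 j i h], fun j => ?_⟩
    simp [Finset.sum_neg_distrib, a3 j]

def slack (n : ℕ) : (ℕ → ℕ → ℤ) →+ (Fin n × Fin n × Bool → ℤ) where
  toFun y p := if p.2.2 then y (p.1 + 1) p.2.1 - y p.1 p.2.1 else y p.1 p.2.1 - y (p.1 + 1) (p.2.1 + 1)
  map_zero' := by funext p; simp
  map_add' a b := by
    funext p
    simp only [Pi.add_apply]
    split_ifs <;> ring

lemma slack_t (n : ℕ) (y : ℕ → ℕ → ℤ) (j i : Fin n) :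
    slack n y (j, i, true) = y (j + 1) i - y j i := rfl
lemma slack_f (n : ℕ) (y : ℕ → ℕ → ℤ) (j i : Fin n) :
    slack n y (j, i, false) = y j i - y (j + 1) (i + 1) := rfl

def df (k : ℕ) (x x0 : ℕ → ℕ → ℕ) : ℕ → ℕ → ℤ := fun j i => (x j i : ℤ) - k * x0 j i

lemma df_mem {n k : ℕ} {l nu : ℕ → ℕ} {x x0 : ℕ → ℕ → ℕ} (h0 : IsGT n l nu x0)
    (h : IsGT n (sc k l) (sc k nu) x) : df k x x0 ∈ W n := by
  refine ⟨fun j i hj => ?_, fun j i hj => ?_, fun j => ?_⟩
  · simp [df, h0.top j hj, h.top j hj, sc]
  · simp [df, h0.supp j i hj, h.supp j i hj]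
  · rcases le_or_gt n j with c | c
    · simp [df, h0.top j c, h.top j c, sc]
    · have a := h0.sum j c.le
      have b := h.sum j c.le
      rw [ps_sc, ← a] at b
      simp only [df, Finset.sum_sub_distrib, ← Finset.mul_sum]
      have : ((ps (x j) j : ℕ) : ℤ) = k * (ps (x0 j) j : ℕ) := by exact_mod_cast b
      simp only [ps, Nat.cast_sum] at this
      omega

theorem stretch (n : ℕ) : ∃ G : ℕ, ∀ (l nu : ℕ → ℕ) (m k : ℕ), 1 ≤ k → (GT n l nu).Nonempty →
    (GT n l nu).ncard ≤ m → (GT n (sc k l) (sc k nu)).ncard ≤ (k * m) ^ G := by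
  obtain ⟨G, hG⟩ := graver ((W n).map (slack n))
  refine ⟨G, fun l nu m k hk ⟨x0, h0⟩ hm => ?_⟩
  let b : Fin n × Fin n × Bool → ℤ := slack n (fun j i => (x0 j i : ℤ))
  have hb : ∀ p, 0 ≤ b p := by
    rintro ⟨j, i, c⟩
    have := h0.int j i
    cases c
    · simp only [b, slack_f]; omega
    · simp only [b, slack_t]; omega
  have hsub : {v | v ∈ (W n).map (slack n) ∧ ∀ p, -b p ≤ v p} ⊆
      (fun x => slack n (df 1 x x0)) '' GT n l nu := by
    rintro _ ⟨⟨y, ⟨y1, y2, y3⟩, rfl⟩, hv⟩
    have s1 : ∀ j i, (x0 j i : ℤ) + y j i ≤ x0 (j + 1) i + y (j + 1) i := by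
      intro j i
      have a := (h0.int j i).1
      rcases le_or_gt n j with c | c
      · rw [y1 j i c, y1 (j + 1) i (by omega)]; omega
      rcases le_or_gt n i with d | d
      · rw [y2 j i (by omega), y2 (j + 1) i (by omega)]; omega
      have := hv (⟨j, c⟩, ⟨i, d⟩, true)
      simp only [b, slack_t] at this
      omega
    have s2 : ∀ j i, (x0 (j + 1) (i + 1) : ℤ) + y (j + 1) (i + 1) ≤ x0 j i + y j i := by
      intro j i
      have a := (h0.int j i).2
      rcases le_or_gt n j with c | c
      · rw [y1 j i c, y1 (j + 1) (i + 1) (by omega)]; omega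
      rcases le_or_gt n i with d | d
      · rw [y2 j i (by omega), y2 (j + 1) (i + 1) (by omega)]; omega
      have := hv (⟨j, c⟩, ⟨i, d⟩, false)
      simp only [b, slack_f] at this
      omega
    have s0 : ∀ j i, 0 ≤ (x0 j i : ℤ) + y j i := by
      intro j i
      induction j with
      | zero => rw [y2 0 i (Nat.zero_le i)]; omega
      | succ j ih => exact ih.trans (s1 j i)
    refine ⟨fun j i => ((x0 j i : ℤ) + y j i).toNat, ⟨fun i => ?_, fun j i => ?_, fun j hj => ?_,
      fun j hj => ?_⟩, ?_⟩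
    · simp [h0.z, y2 0 i (Nat.zero_le i)]
    · have := s1 j i
      have := s2 j i
      omega
    · funext i
      simp [h0.top j hj, y1 j i hj]
    · rw [← h0.sum j hj]
      have : ((ps (fun i => ((x0 j i : ℤ) + y j i).toNat) j : ℕ) : ℤ) = (ps (x0 j) j : ℕ) := by
        simp only [ps, Nat.cast_sum, Int.toNat_of_nonneg (s0 j _), Finset.sum_add_distrib, y3 j,
          add_zero]
      exact_mod_cast this
    · simp only
      congr 1
      funext j i
      simp [df, Int.toNat_of_nonneg (s0 j i)]
  have hf := (gt_finite n l nu).image (fun x => slack n (df 1 x x0))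
  obtain ⟨hfin, hle⟩ := hG b m k hb hk (hf.subset hsub)
    ((Set.ncard_le_ncard hsub hf).trans ((Set.ncard_image_le (gt_finite _ _ _)).trans hm))
  refine le_trans (Set.ncard_le_ncard_of_injOn (fun x => slack n (df k x x0)) ?_ ?_ hfin) hle
  · intro x hx
    refine ⟨⟨_, df_mem h0 hx, rfl⟩, ?_⟩
    rintro ⟨j, i, c⟩
    have := hx.int j i
    cases c
    · simp only [b, slack_f, df, mul_sub]; omega
    · simp only [b, slack_t, df, mul_sub]; omega
  · intro x hx y hy h
    funext j i
    rcases le_or_gt n i with d | d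
    · rcases le_or_gt n j with c | c
      · rw [hx.top j c, hy.top j c]
      · rw [hx.supp j i (by omega), hy.supp j i (by omega)]
    induction j with
    | zero => rw [hx.z, hy.z]
    | succ j ih =>
      rcases le_or_gt n j with c | c
      · rw [hx.top (j + 1) (by omega), hy.top (j + 1) (by omega)]
      · have := congrFun h (⟨j, c⟩, ⟨i, d⟩, true)
        simp only [slack_t, df] at this
        omega

theorem gt_bound (M : ℕ) : ∃ D : ℕ, ∀ (k : ℕ), 1 ≤ k → ∀ (n : ℕ) (l nu : ℕ → ℕ), Antitone nu →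
    Dom n l nu → (GT n l nu).ncard ≤ M →
    (GT n (sc k l) (sc k nu)).ncard ≤ ((k * M) ^ D) ^ ((GT n l nu).ncard - 1) := by
  choose G hG using stretch
  refine ⟨(range (2 * M + 1)).sup G, fun k hk n => ?_⟩
  induction n using Nat.strong_induction_on with
  | _ n ih =>
    intro l nu hnu hD hM
    have hne := gt_nonempty hnu n l hD
    have hpos := (Set.ncard_pos (gt_finite _ _ _)).mpr hne
    have hkM : 1 ≤ k * M := Nat.mul_pos hk (by omega)
    have hH : 1 ≤ (k * M) ^ (range (2 * M + 1)).sup G := Nat.one_le_pow _ _ hkM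
    by_cases hP : Prim n l nu
    · by_cases hnt : l (n - 1) < l 1 ∧ l (n - 2) < l 0
      · have h1 := (lower hnu n l hP).2 hnt
        have h3 : 3 ≤ n := by
          by_contra hc
          have a := hD.anti (show n - 1 ≤ 1 by omega)
          omega
        refine (hG n l nu M k hk hne hM).trans (le_trans (Nat.pow_le_pow_right hkM
          (Finset.le_sup (f := G) (Finset.mem_range.mpr (show n < 2 * M + 1 by omega)))) ?_)
        exact Nat.le_self_pow (by omega) _
      · refine le_trans ((Set.ncard_le_one (gt_finite _ _ _)).mpr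
          (gt_subsingleton _ ?_)) (Nat.one_le_pow _ _ hH)
        rcases not_and_or.mp hnt with c | c
        · exact Or.inl (Nat.mul_le_mul_left k (by omega))
        · exact Or.inr (Nat.mul_le_mul_left k (by omega))
    · have : ∃ t, 0 < t ∧ t < n ∧ ps l t = ps nu t := by
        by_contra hc
        push Not at hc
        exact hP ⟨hD, fun t h0 ht => lt_of_le_of_ne (hD.le t ht.le) (hc t h0 ht).symm⟩
      obtain ⟨t, h0, ht, e⟩ := this
      obtain ⟨s, rfl⟩ : ∃ s, n = t + s := ⟨n - t, by omega⟩
      obtain ⟨x, hx⟩ := hne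
      have g1 := split_fst hx e
      have g2 := split_snd hx e
      have p1 := (Set.ncard_pos (gt_finite t (tr t l) nu)).mpr ⟨_, g1⟩
      have p2 := (Set.ncard_pos (gt_finite s (sh t l) (sh t nu))).mpr ⟨_, g2⟩
      have hge := split_ge (s := s) hD.anti e
      set a := (GT t (tr t l) nu).ncard with ha
      set b := (GT s (sh t l) (sh t nu)).ncard with hb
      have hab : a + b ≤ a * b + 1 := by
        obtain ⟨a', e1⟩ : ∃ a', a = a' + 1 := ⟨a - 1, by omega⟩
        obtain ⟨b', e2⟩ : ∃ b', b = b' + 1 := ⟨b - 1, by omega⟩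
        rw [e1, e2]
        nlinarith [Nat.zero_le (a' * b')]
      have i1 := ih t ht (tr t l) nu hnu g1.dom (by omega)
      have i2 := ih s (by omega) (sh t l) (sh t nu) (fun i j hij => hnu (by omega)) g2.dom
        (by omega)
      have hle := split_le (t := t) (s := s) (l := sc k l) (nu := sc k nu)
        (by rw [ps_sc, ps_sc, e])
      have e1 : tr t (sc k l) = sc k (tr t l) := by
        funext i
        simp only [tr, sc]
        split_ifs <;> simp
      have e2 : ∀ f, sh t (sc k f) = sc k (sh t f) := fun f => rfl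
      rw [e1, e2, e2] at hle
      refine hle.trans ((Nat.mul_le_mul i1 i2).trans ?_)
      rw [← pow_add]
      exact Nat.pow_le_pow_right hH (by omega)

end Pool.Agent.H.MP_62af7b_co
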