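import Pool.Agent.H.MP_62af7b_co.D

set_option autoImplicit false

namespace Pool.Agent.H.MP_62af7b_co

open Finset

/-- semistandard tableaux of shape `l` and content `nu` -/
def SS (l nu : ℕ → ℕ) : Set (ℕ × ℕ → ℕ) :=
  {T | (∀ x : ℕ × ℕ, ¬ (x.2 < l x.1) → T x = 0) ∧
    (∀ i j : ℕ, j + 1 < l i → T (i, j) ≤ T (i, j + 1)) ∧
    (∀ i j : ℕ, j < l (i + 1) → T (i, j) < T (i + 1, j)) ∧
    (∀ c : ℕ, Set.ncard {x : ℕ × ℕ | x.2 < l x.1 ∧ T x = c} = nu c)}

structure Ch (l : ℕ → ℕ) (T : ℕ × ℕ → ℕ) (x : ℕ → ℕ → ℕ) : Prop where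
  le : ∀ j i, x j i ≤ l i
  iff : ∀ i c j, c < l i → (T (i, c) < j ↔ c < x j i)

lemma Ch.mono {l : ℕ → ℕ} {T : ℕ × ℕ → ℕ} {x : ℕ → ℕ → ℕ} (h : Ch l T x) (j i : ℕ) :
    x j i ≤ x (j + 1) i := by
  by_contra hc
  have a := h.le j i
  have b := h.iff i (x (j + 1) i) j (by omega)
  have c := h.iff i (x (j + 1) i) (j + 1) (by omega)
  omega

lemma Ch.unique {l : ℕ → ℕ} {T : ℕ × ℕ → ℕ} {x y : ℕ → ℕ → ℕ} (h : Ch l T x) (h' : Ch l T y) :
    x = y := by
  funext j i
  have a := h.le j i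
  have a' := h'.le j i
  have b := h.iff i (x j i) j
  have b' := h'.iff i (x j i) j
  have c := h.iff i (y j i) j
  have c' := h'.iff i (y j i) j
  omega

lemma Ch.count {l : ℕ → ℕ} {T : ℕ × ℕ → ℕ} {x : ℕ → ℕ → ℕ} (h : Ch l T x) {N : ℕ}
    (hN : ∀ i, N ≤ i → l i = 0) (j : ℕ) :
    Set.ncard {p : ℕ × ℕ | p.2 < l p.1 ∧ T p = j} + ps (x j) N = ps (x (j + 1)) N := by
  classical
  have e : {p : ℕ × ℕ | p.2 < l p.1 ∧ T p = j} =
      ↑(((range N).sigma (fun i => Ico (x j i) (x (j + 1) i))).image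
        (fun q : (Σ _ : ℕ, ℕ) => (q.1, q.2))) := by
    ext ⟨i, c⟩
    simp only [Set.mem_ofPred_eq, Finset.coe_image, Set.mem_image, Finset.mem_coe,
      Finset.mem_sigma, Finset.mem_range, Finset.mem_Ico, Prod.mk.injEq]
    constructor
    · rintro ⟨h1, h2⟩
      have a := h.iff i c j h1
      have b := h.iff i c (j + 1) h1
      refine ⟨⟨i, c⟩, ⟨?_, by simp only; omega, by simp only; omega⟩, rfl, rfl⟩
      by_contra hc
      have := hN i (by simpa using hc)
      omega
    · rintro ⟨⟨i', c'⟩, ⟨-, h1, h2⟩, rfl, rfl⟩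
      simp only at h1 h2 ⊢
      have f := h.le (j + 1) i'
      have a := h.iff i' c' j (by omega)
      have b := h.iff i' c' (j + 1) (by omega)
      omega
  rw [e, Set.ncard_coe_finset, Finset.card_image_of_injective, Finset.card_sigma]
  · simp only [ps, Nat.card_Ico, ← Finset.sum_add_distrib]
    exact Finset.sum_congr rfl fun i _ => Nat.sub_add_cancel (h.mono j i)
  · rintro ⟨a, b⟩ ⟨c, d⟩ h
    obtain ⟨rfl, rfl⟩ := Prod.mk.inj h
    rfl

lemma down_card (P : ℕ → Prop) [DecidablePred P] (n : ℕ)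
    (h : ∀ a b, a ≤ b → b < n → P b → P a) (c : ℕ) (hc : c < n) :
    P c ↔ c < ((range n).filter P).card := by
  constructor
  · intro hp
    have : range (c + 1) ⊆ (range n).filter P := by
      intro a ha
      have := Finset.mem_range.mp ha
      exact Finset.mem_filter.mpr ⟨Finset.mem_range.mpr (by omega), h a c (by omega) hc hp⟩
    have := Finset.card_le_card this
    rw [Finset.card_range] at this
    omega
  · intro hlt
    by_contra hp
    have : (range n).filter P ⊆ range c := by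
      intro a ha
      obtain ⟨h1, h2⟩ := Finset.mem_filter.mp ha
      rw [Finset.mem_range] at h1 ⊢
      by_contra hca
      exact hp (h c a (by omega) h1 h2)
    have := Finset.card_le_card this
    rw [Finset.card_range] at this
    omega

lemma ps_supp {f : ℕ → ℕ} {j N : ℕ} (hj : j ≤ N) (h : ∀ i, j ≤ i → f i = 0) : ps f N = ps f j := by
  obtain ⟨d, rfl⟩ : ∃ d, N = j + d := ⟨N - j, by omega⟩
  rw [ps_add]
  have : ps (fun i => f (j + i)) d = 0 := Finset.sum_eq_zero fun i _ => h _ (by omega)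
  omega

def gx (l : ℕ → ℕ) (T : ℕ × ℕ → ℕ) : ℕ → ℕ → ℕ :=
  fun j i => ((range (l i)).filter (fun c => T (i, c) < j)).card

lemma gx_ch {l nu : ℕ → ℕ} {T : ℕ × ℕ → ℕ} (h : T ∈ SS l nu) : Ch l T (gx l T) := by
  refine ⟨fun j i => (Finset.card_filter_le _ _).trans (Finset.card_range _).le,
    fun i c j hc => down_card (fun c => T (i, c) < j) (l i) ?_ c hc⟩
  intro a b hab hb
  induction b, hab using Nat.le_induction with
  | base => exact id
  | succ b _ ih =>
    intro hp
    exact ih (by omega) (lt_of_le_of_lt (h.2.1 i b hb) hp)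

lemma gx_mem {l nu : ℕ → ℕ} {T : ℕ × ℕ → ℕ} {N : ℕ} (ha : Antitone l)
    (hN : ∀ i, N ≤ i → l i = 0 ∧ nu i = 0) (h : T ∈ SS l nu) : IsGT N l nu (gx l T) := by
  have hc := gx_ch h
  have hcount : ∀ j, nu j + ps (gx l T j) N = ps (gx l T (j + 1)) N := fun j => by
    rw [← h.2.2.2 j]
    exact hc.count (fun i hi => (hN i hi).1) j
  have hz : ∀ i, gx l T 0 i = 0 := fun i => by simp [gx]
  have hint : ∀ j, Inter (gx l T (j + 1)) (gx l T j) := by
    intro j i
    refine ⟨hc.mono j i, ?_⟩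
    by_contra hcon
    have a := hc.le (j + 1) (i + 1)
    have a' := ha (Nat.le_succ i)
    have b := hc.iff (i + 1) (gx l T j i) (j + 1) (by omega)
    have d := hc.iff i (gx l T j i) j (by simp only [Nat.succ_eq_add_one] at a'; omega)
    have e := h.2.2.1 i (gx l T j i) (by omega)
    omega
  have hsupp : ∀ j i, j ≤ i → gx l T j i = 0 := by
    intro j
    induction j with
    | zero => intro i _; exact hz i
    | succ j ih =>
      intro i hi
      obtain ⟨i, rfl⟩ : ∃ i', i = i' + 1 := ⟨i - 1, by omega⟩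
      have := (hint j i).2
      have := ih i (by omega)
      omega
  have hlt : ∀ i c, c < l i → T (i, c) < N := by
    intro i c hcl
    by_contra hge
    have hi : i < N := by
      by_contra hi
      have := (hN i (by omega)).1
      omega
    have a := hcount (T (i, c))
    rw [(hN _ (by omega)).2] at a
    have b := ps_eq (t := N) (fun i' _ => hc.mono (T (i, c)) i') (by omega) i hi
    have d := hc.iff i c (T (i, c)) hcl
    have e := hc.iff i c (T (i, c) + 1) hcl
    omega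
  refine ⟨hz, hint, fun j hj => ?_, fun j hj => ?_⟩
  · funext i
    have a := hc.le j i
    by_contra hne
    have b := hc.iff i (gx l T j i) j (by omega)
    have d := hlt i (gx l T j i) (by omega)
    omega
  · rw [← ps_supp hj (hsupp j)]
    clear hj
    induction j with
    | zero => simp [ps, hz]
    | succ j ih =>
      rw [← hcount j, ih, ps_succ]
      omega

def fx (N : ℕ) (l : ℕ → ℕ) (x : ℕ → ℕ → ℕ) : ℕ × ℕ → ℕ :=
  fun p => if p.2 < l p.1 then ((range N).filter (fun j => x (j + 1) p.1 ≤ p.2)).card else 0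

lemma fx_ch {l nu : ℕ → ℕ} {x : ℕ → ℕ → ℕ} {N : ℕ} (h : IsGT N l nu x) : Ch l (fx N l x) x := by
  refine ⟨h.le_top, fun i c j hc => ?_⟩
  simp only [fx, if_pos hc]
  rcases Nat.eq_zero_or_pos j with d | d
  · subst d
    simp [h.z]
  obtain ⟨j, rfl⟩ : ∃ j', j = j' + 1 := ⟨j - 1, by omega⟩
  rcases lt_or_ge j N with e | e
  · have := down_card (fun j => x (j + 1) i ≤ c) N
      (fun a b hab _ hb => (h.mono i (show a + 1 ≤ b + 1 by omega)).trans hb) j e
    omega
  · have := (Finset.card_filter_le (range N) (fun j => x (j + 1) i ≤ c)).trans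
      (Finset.card_range _).le
    rw [h.top (j + 1) (by omega)]
    omega

lemma fx_mem {l nu : ℕ → ℕ} {x : ℕ → ℕ → ℕ} {N : ℕ} (ha : Antitone l)
    (hN : ∀ i, N ≤ i → l i = 0 ∧ nu i = 0) (h : IsGT N l nu x) : fx N l x ∈ SS l nu := by
  have hc := fx_ch h
  refine ⟨fun p hp => by simp only [fx, if_neg hp], fun i c hcl => ?_, fun i c hcl => ?_,
    fun j => ?_⟩
  · have a := hc.iff i (c + 1) (fx N l x (i, c + 1) + 1) hcl
    have b := hc.iff i c (fx N l x (i, c + 1) + 1) (by omega)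
    omega
  · have a := hc.iff (i + 1) c (fx N l x (i + 1, c) + 1) hcl
    have a' := ha (show i ≤ i + 1 by omega)
    have b := hc.iff i c (fx N l x (i + 1, c)) (by omega)
    have d := (h.int (fx N l x (i + 1, c)) i).2
    omega
  · have a := hc.count (fun i hi => (hN i hi).1) j
    rcases lt_or_ge j N with e | e
    · rw [ps_supp e.le (h.supp j), ps_supp (show j + 1 ≤ N from e) (h.supp (j + 1)),
        h.sum j e.le, h.sum (j + 1) e, ps_succ] at a
      omega
    · rw [h.top j e, h.top (j + 1) (by omega)] at a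
      rw [(hN j e).2]
      omega

theorem ss_card {l nu : ℕ → ℕ} {N : ℕ} (ha : Antitone l)
    (hN : ∀ i, N ≤ i → l i = 0 ∧ nu i = 0) : (SS l nu).ncard = (GT N l nu).ncard := by
  apply Set.ncard_congr (fun T _ => gx l T) (fun T hT => gx_mem ha hN hT)
  · intro T T' hT hT' e
    funext ⟨i, c⟩
    by_cases hc : c < l i
    · have a := (gx_ch hT).iff i c
      have b := (gx_ch hT').iff i c
      rw [← e] at b
      have a1 := a (T (i, c) + 1) hc
      have a2 := a (T' (i, c) + 1) hc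
      have b1 := b (T (i, c) + 1) hc
      have b2 := b (T' (i, c) + 1) hc
      omega
    · rw [hT.1 (i, c) hc, hT'.1 (i, c) hc]
  · intro x hx
    exact ⟨fx N l x, fx_mem ha hN hx, (gx_ch (fx_mem ha hN hx)).unique (fx_ch hx)⟩

theorem ss_bound (m : ℕ) : ∃ C D : ℕ, ∀ (l nu : ℕ → ℕ) (N : ℕ), Antitone l → Antitone nu →
    (∀ i, N ≤ i → l i = 0 ∧ nu i = 0) → (SS (sc 1 l) (sc 1 nu)).ncard = m → ∀ k, 1 ≤ k →
    (SS (sc k l) (sc k nu)).ncard ≤ C * k ^ D := by
  obtain ⟨D, hD⟩ := gt_bound m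
  refine ⟨m ^ (D * (m - 1)), D * (m - 1), fun l nu N ha hnu hN hm k hk => ?_⟩
  have e1 : ∀ f, sc 1 f = f := fun f => by funext i; simp [sc]
  rw [e1, e1, ss_card ha hN] at hm
  rw [ss_card (N := N) (l := sc k l) (nu := sc k nu) (fun i j hij => Nat.mul_le_mul_left k (ha hij))
    (fun i hi => by simp [sc, hN i hi])]
  rcases (GT N (sc k l) (sc k nu)).eq_empty_or_nonempty with c | ⟨x, hx⟩
  · rw [c]
    simp
  · have := hD k hk N l nu hnu (hx.dom.of_sc hk) hm.le
    rw [hm, ← pow_mul, mul_pow, mul_comm] at this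
    exact this

end Pool.Agent.H.MP_62af7b_co
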